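import Pool.Agent.Q26.PD.LF6

/-!
# Primes `q` with `a + q d` prime, for almost all palindromes `a` and all small `d`, and for systems

Definitions used (all in `Pool.Agent.Q26.PD.Sys`), for vectors `a, d` of `s` integers:
* `count a d N`: the number of the primes `q ≤ N` for which all `a i + q d i` are (positive) primes;
* `nu a d p`: the number `ν(p)` of the residues `r` modulo `p` for which `p` divides `r (a 1 + r d 1) ... (a s + r d s)`;
* `Adm a d`: `ν(p) < p` for all primes `p`, thus there is no fixed prime divisor of `r (a 1 + r d 1) ... (a s + r d s)`;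
* `sing a d z`: the product over the primes `p ≤ z` of `(1 - ν(p) / p) / (1 - 1 / p) ^ (s + 1)`;
* `Formula ε m X a d`: if `Adm a d`, then `sing a d z` converges for `z → ∞` to some `G > 0`, and
  `|count a d N - G N / log ^ (s + 1) N| ≤ ε G N / log ^ (s + 1) N` for all `N ≤ X` with `X ≤ m N` for which all
  `a i + q d i` with `1 ≤ q ≤ N` are positive;
* `AllFormulas ε m X D a`: `Formula ε m X a d` holds for ALL vectors `d` of integers with `1 ≤ |d i| ≤ D`.
-/

set_option autoImplicit false

namespace Pool.Agent.Results.MP_8bf9c2_nt.PalindromicConstants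

open Finset Pool.Agent.Q26.PD.Sys

/-- `v` is a palindrome with exactly `k` digits in base `b`: the digit number `j` (which is
`v / b ^ j % b`) is equal to the digit number `k - 1 - j`, for all `j < k`. -/
def IsPalindrome (b k v : ℕ) : Prop :=
  b ^ (k - 1) ≤ v ∧ v < b ^ k ∧ ∀ j < k, v / b ^ j % b = v / b ^ (k - 1 - j) % b

open Classical in
/-- The palindromes with exactly `k` digits in base `b`. -/
noncomputable def palindromes (b k : ℕ) : Finset ℕ := (range (b ^ k)).filter (IsPalindrome b k)

open Classical in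
/-- Let `s ≥ 1`, bases `b i ≥ 2`, integers `κ i ≠ 0`, `D ≥ 1`, `B`, `m ≥ 1`, `U` and `ε > 0` be fixed. Let `X` be large, let
`X ≤ B (b i) ^ (k i)` and `(b i) ^ (k i) ≤ B X`, and let the integers `c i` with `|c i| ≤ B X` be arbitrary. All the vectors
`(v 1, ..., v s)` of palindromes, `v i` with `k i` digits in base `b i`, with the exception of a proportion of at most
`1 / log ^ U X` of these vectors, have the following property. Let `a i = c i + κ i v i`. Then, for ALL vectors
`(d 1, ..., d s)` of integers with `1 ≤ |d i| ≤ D` without a fixed prime divisor of `r (a 1 + r d 1) ... (a s + r d s)`,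
the number of the primes `q ≤ N` for which all `a i + q d i` are primes satisfies the asymptotic formula of Hardy and
Littlewood with a relative error of at most `ε`, for all `N` between `X / m` and `X` for which the numbers `a i + q d i`
with `1 ≤ q ≤ N` are positive.

For `s = 1` the condition on `(a, d)` is that of the problem: `gcd(a, d) = 1` and `2 ∣ a d`. -/
theorem result :
    (∀ (s : ℕ), 1 ≤ s → ∀ (b : Fin s → ℕ), (∀ i, 2 ≤ b i) → ∀ (κ : Fin s → ℤ), (∀ i, κ i ≠ 0) →
      ∀ (D B m U : ℕ), 1 ≤ D → 1 ≤ m → ∀ ε : ℝ, 0 < ε →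
      ∃ X₀ : ℕ, ∀ X, X₀ ≤ X → ∀ k : Fin s → ℕ, (∀ i, X ≤ B * b i ^ k i ∧ b i ^ k i ≤ B * X) →
        ∀ c : Fin s → ℤ, (∀ i, |c i| ≤ (B : ℤ) * X) →
        (((Fintype.piFinset fun i => palindromes (b i) (k i)).filter fun v =>
          ¬ AllFormulas ε m X D (fun i => c i + κ i * (v i : ℤ))).card : ℝ) ≤
        ((Fintype.piFinset fun i => palindromes (b i) (k i)).card : ℝ) / Real.log X ^ U) ∧
    (∀ a d : ℤ, Adm (fun _ : Fin 1 => a) (fun _ => d) ↔ IsCoprime a d ∧ 2 ∣ a * d) := by
  refine ⟨fun s hs b hb κ hκ D B m U hD hm ε hε => ?_, adm_one⟩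
  obtain ⟨X₀, h⟩ := Pool.Agent.Q26.PD.lf_pal true s hs b hb κ hκ D B m U hD hm ε hε
  refine ⟨X₀ + 1, fun X hX k hk c hc => ?_⟩
  refine le_trans ?_ (h X (by omega) k hk c hc)
  apply Nat.cast_le.2
  apply card_le_card
  intro v hv
  rw [mem_filter] at hv ⊢
  exact ⟨hv.1, fun hg => hv.2 (of_good ε m X D _ (by omega) hg)⟩

end Pool.Agent.Results.MP_8bf9c2_nt.PalindromicConstants
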