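import Pool.Agent.TH935.TG3
import Pool.Agent.Q56.TF.Vec

/-!
# Primes `q` from arbitrary sets of primes with `a + q d` prime: all `a` in windows around almost all members of a
real sequence, all `d`

The numbers `a` are arbitrary integers with `|a - r m| ≤ log ^ A N`, for almost all `m ≤ x`, where
`r 1, ..., r x` is an arbitrary family of real numbers of nearly minimal energy; for instance the (real) values
`β + κ f m` of a polynomial `f` with integer coefficients, with arbitrary real `κ ≠ 0` and `β`, or of a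
generalised polynomial `f t = ∑ w_y t ^ y` whose largest exponent is greater than `1` and not an integer
(`f t = t ^ c`: the sequences of Piatetski-Shapiro).

From Mathlib: `Polynomial ℤ`, `f.eval m`: polynomials and their values; `Finset.Ioc y₁ y₂`: the integers `q` with
`y₁ < q ≤ y₂`. The formula for families of integers is from the starting files (`Pool.Agent.TH935.TG.fam_win`).
-/

set_option autoImplicit false

namespace Pool.Agent.Results.MP_8bf9c2_nt.ShiftsNearRealSequences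

open Finset

open Classical in
/-- The energy of order `p` of the family of real numbers `r 1, ..., r x`: the number of the pairs `v`, `w` of
`p`-tuples of elements of `{1, ..., x}` such that `r (v 1) + ... + r (v p)` and `r (w 1) + ... + r (w p)` differ
by at most `1`. -/
noncomputable def energy (p x : ℕ) (r : ℕ → ℝ) : ℕ :=
  (((Fintype.piFinset fun _ : Fin p => Icc 1 x) ×ˢ (Fintype.piFinset fun _ : Fin p => Icc 1 x)).filter
    (fun q => |∑ i, r (q.1 i) - ∑ i, r (q.2 i)| ≤ 1)).card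

open Classical in
/-- The number of the primes `q ∈ M` with `y₁ < q ≤ y₂` such that `|a + q d|` is prime. -/
noncomputable def primeCount (a : ℤ) (d : ℕ) (M : Set ℕ) (y₁ y₂ : ℕ) : ℕ :=
  ((Ioc y₁ y₂).filter (fun q : ℕ => q.Prime ∧ q ∈ M ∧ (a + q * d).natAbs.Prime)).card

open Classical in
/-- The number of the primes `q ∈ M` with `y₁ < q ≤ y₂` such that `a + q d` is not divisible by a prime `p ≤ z`. -/
noncomputable def roughCount (a : ℤ) (d z : ℕ) (M : Set ℕ) (y₁ y₂ : ℕ) : ℕ :=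
  ((Ioc y₁ y₂).filter (fun q : ℕ => q.Prime ∧ q ∈ M ∧ ∀ p : ℕ, p.Prime → p ≤ z → ¬ (p : ℤ) ∣ a + q * d)).card

/-- `∏_{p ≤ z} (1 - 1 / p)`, the density of the integers without prime factors `≤ z`. -/
noncomputable def V (z : ℕ) : ℝ := ∏ p ∈ (Icc 1 z).filter Nat.Prime, (1 - 1 / (p : ℝ))

/-- The integer `a` is good: for all `1 ≤ d ≤ log ^ D N`, for every one of the sets `𝒩 j` and every window
`y₁ < q ≤ y₂` with `y₂ ≤ B N` which contains at least `N / log ^ K N` primes `q` of `𝒩 j` such that `a + q d` has no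
prime factor `≤ z`, the proportion of these primes for which `|a + q d|` is prime is `1 / (V z log N)`, up to a
relative error of at most `ε`. -/
def Good (ε : ℝ) (K D B N z : ℕ) {l : ℕ} (𝒩 : Fin l → Set ℕ) (a : ℤ) : Prop :=
  ∀ d : ℕ, 1 ≤ d → (d : ℝ) ≤ Real.log N ^ D → ∀ j : Fin l, ∀ y₁ y₂ : ℕ, y₁ ≤ y₂ → y₂ ≤ B * N →
    (N : ℝ) / Real.log N ^ K ≤ roughCount a d z (𝒩 j) y₁ y₂ →
    |(primeCount a d (𝒩 j) y₁ y₂ : ℝ) - roughCount a d z (𝒩 j) y₁ y₂ / (V z * Real.log N)| ≤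
      ε * (roughCount a d z (𝒩 j) y₁ y₂ / (V z * Real.log N))

open Classical in
/-- The number of the `m` in `{1, ..., x}` for which not all integers `a` at a distance of at most `w` from `r m`
have the property `G`. -/
noncomputable def exceptions (x : ℕ) (r : ℕ → ℝ) (w : ℝ) (G : ℤ → Prop) : ℕ :=
  ((Icc 1 x).filter (fun m => ∃ a : ℤ, |(a : ℝ) - r m| ≤ w ∧ ¬ G a)).card

/-- The bound at scale `N` for the windows around the `r m`, `m ≤ x`: for any `l ≤ log ^ T N` sets `𝒩 j`, for all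
`m ≤ x` with at most `x / log ^ U N` exceptions all integers `a` with `|a - r m| ≤ log ^ A N` are good. -/
def Holds (ε : ℝ) (A B D K T U N z x : ℕ) (r : ℕ → ℝ) : Prop :=
  ∀ l : ℕ, (l : ℝ) ≤ Real.log N ^ T → ∀ 𝒩 : Fin l → Set ℕ,
    (exceptions x r (Real.log N ^ A) (Good ε K D B N z 𝒩) : ℝ) ≤ x / Real.log N ^ U

/-- The sequence `f`, of growth `x ^ e`, has the property at all large scales: for all `x` with
`N / log ^ C N ≤ x ^ e ≤ B N` and all translates `β + f m`, `|β| ≤ B N`. -/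
def Sequence (ε : ℝ) (A B C D K T U : ℕ) (f : ℕ → ℝ) (e : ℝ) : Prop :=
  ∃ E₀ : ℕ, ∀ E : ℕ, E₀ ≤ E → ∃ N₀ : ℕ, ∀ N : ℕ, N₀ ≤ N → ∀ x : ℕ, (x : ℝ) ^ e ≤ B * N →
    (N : ℝ) ≤ Real.log N ^ C * (x : ℝ) ^ e → ∀ β : ℝ, |β| ≤ B * N →
    Holds ε A B D K T U N ⌊Real.log N ^ E⌋₊ x (fun m => β + f m)

open Pool.Agent.TH935.TG
open Pool.Agent.H373R2.T7 (pz mem_pz Vz)

open Classical in
lemma prime_eq (a : ℤ) (d : ℕ) (M : Set ℕ) (Y y₁ y₂ : ℕ) (hY : y₂ ≤ Y) :
    primeCount a d M y₁ y₂ =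
      cnM (fun _ : Fin 1 => (d : ℤ)) (fun _ => a) (win ((Ioc 0 Y).filter (fun q => q.Prime ∧ q ∈ M)) y₁ y₂) := by
  unfold primeCount cnM win
  rw [filter_filter, filter_filter]
  congr 1
  ext n
  rw [mem_filter, mem_filter, mem_Ioc, mem_Ioc]
  have e : (d : ℤ) * (n : ℤ) + a = a + n * d := by ring
  constructor
  · rintro ⟨⟨h1, h2⟩, h3, h4, h5⟩
    exact ⟨⟨by omega, by omega⟩, ⟨h3, h4⟩, ⟨h1, h2⟩, fun _ => by rw [e]; exact h5⟩
  · rintro ⟨_, ⟨h3, h4⟩, ⟨h1, h2⟩, h5⟩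
    have h6 := h5 0
    rw [e] at h6
    exact ⟨⟨h1, h2⟩, h3, h4, h6⟩

open Classical in
lemma rough_eq (a : ℤ) (d z : ℕ) (M : Set ℕ) (Y y₁ y₂ : ℕ) (hY : y₂ ≤ Y) :
    roughCount a d z M y₁ y₂ =
      rgM (fun _ : Fin 1 => (d : ℤ)) (fun _ => a) z (win ((Ioc 0 Y).filter (fun q => q.Prime ∧ q ∈ M)) y₁ y₂) := by
  unfold roughCount rgM win
  rw [filter_filter, filter_filter]
  congr 1
  ext n
  rw [mem_filter, mem_filter, mem_Ioc, mem_Ioc]
  have e : (d : ℤ) * (n : ℤ) + a = a + n * d := by ring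
  constructor
  · rintro ⟨⟨h1, h2⟩, h3, h4, h5⟩
    exact ⟨⟨by omega, by omega⟩, ⟨h3, h4⟩, ⟨h1, h2⟩,
      fun _ p hp => by rw [e]; exact h5 p (mem_pz.1 hp).2 (mem_pz.1 hp).1⟩
  · rintro ⟨_, ⟨h3, h4⟩, ⟨h1, h2⟩, h5⟩
    refine ⟨⟨h1, h2⟩, h3, h4, fun p hp1 hp2 => ?_⟩
    have h6 := h5 0 p (mem_pz.2 ⟨hp2, hp1⟩)
    rw [e] at h6
    exact h6

open Classical in
lemma good_of (ε : ℝ) (K D B B' N z : ℕ) (hB : B ≤ B') {l : ℕ} (𝒩 : Fin l → Set ℕ) (a : ℤ)
    (h : HB ε K D B' N z (fun j : Fin l => (Ioc 0 (B' * N)).filter (fun q => q.Prime ∧ q ∈ 𝒩 j))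
      (fun _ : Fin 1 => a)) : Good ε K D B N z 𝒩 a := by
  intro d hd hdL j y₁ y₂ h12 hy2 hR
  have hy3 : y₂ ≤ B' * N := hy2.trans (Nat.mul_le_mul_right _ hB)
  have h1 := h (fun _ => (d : ℤ)) (fun _ => by exact_mod_cast (by omega : d ≠ 0)) (fun _ => by simpa using hdL) j
    y₁ y₂ h12 hy3
  rw [rough_eq a d z (𝒩 j) (B' * N) y₁ y₂ hy3] at hR ⊢
  rw [prime_eq a d (𝒩 j) (B' * N) y₁ y₂ hy3]
  have h2 := h1 hR
  rw [pow_one] at h2
  exact h2

open Classical in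
lemma holds_of (p A B B' C D T U K : ℕ) (hB : B ≤ B') (ε : ℝ) (hε : 0 < ε) :
    ∃ E₀ : ℕ, ∀ E : ℕ, E₀ ≤ E → ∃ N₀ : ℕ, ∀ N : ℕ, N₀ ≤ N → ∀ (x : ℕ) (r : ℕ → ℝ),
      Pool.Agent.Q56.TF.Flo p B' C N x r → Holds ε A B D K T U N ⌊Real.log N ^ E⌋₊ x r := by
  obtain ⟨E₀, h0⟩ := Pool.Agent.TH935.TG.fam_win 1 p (B' + 1) C D T (U + (A + 1) * 1) K le_rfl ε hε
  refine ⟨E₀, fun E hE => ?_⟩
  obtain ⟨N₁, h1⟩ := h0 E hE
  obtain ⟨N₂, h2⟩ := Pool.Agent.Q56.TF.vec 1 A B' C p U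
  refine ⟨N₁ + N₂, fun N hN x r hr l hl 𝒩 => ?_⟩
  have h3 := h2 N (by omega) (fun _ => x) (fun _ => r) (fun _ => hr)
    (fun a => ¬ HB ε K D (B' + 1) N ⌊Real.log N ^ E⌋₊
      (fun j : Fin l => (Ioc 0 ((B' + 1) * N)).filter (fun q => q.Prime ∧ q ∈ 𝒩 j)) a)
    (fun s hs hE 𝒮 h𝒮 hb => h1 N (by omega) (Fin l) (by rw [Fintype.card_fin]; exact hl)
      (fun j : Fin l => (Ioc 0 ((B' + 1) * N)).filter (fun q => q.Prime ∧ q ∈ 𝒩 j))
      (fun j => filter_subset _ _) (fun _ => x) s hs hE 𝒮 h𝒮 hb)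
    (((Icc 1 x).filter (fun m => ∃ a : ℤ, |(a : ℝ) - r m| ≤ Real.log N ^ A ∧
      ¬ Good ε K D B N ⌊Real.log N ^ E⌋₊ 𝒩 a)).image (fun m => fun _ : Fin 1 => m)) (by
      intro q hq
      obtain ⟨m, hm, rfl⟩ := mem_image.1 hq
      rw [Fintype.mem_piFinset]
      exact fun _ => (mem_filter.1 hm).1) (by
      intro q hq
      obtain ⟨m, hm, rfl⟩ := mem_image.1 hq
      obtain ⟨_, a, ha1, ha2⟩ := mem_filter.1 hm
      exact ⟨fun _ => a, fun _ => ha1, fun h => ha2 (good_of ε K D B (B' + 1) N _ (by omega) 𝒩 a h)⟩)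
  rw [card_image_of_injective _ (fun m m' h => congrFun h 0), Fin.prod_univ_one] at h3
  exact h3

lemma sequence_of {f : ℕ → ℝ} {e : ℝ} (h : Pool.Agent.Q56.TF.Base f e) (he : 1 ≤ e) (A B C D K T U : ℕ) (ε : ℝ)
    (hε : 0 < ε) : Sequence ε A B C D K T U f e := by
  obtain ⟨p, B', C', N₀, h1⟩ := Pool.Agent.Q56.TF.flo_base h he B C
  obtain ⟨N₃, h4⟩ := Pool.Agent.H373R2.T7.ev_L' 1
  obtain ⟨E₀, h2⟩ := holds_of p A B (B + B') C' D T U K (by omega) ε hε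
  refine ⟨E₀, fun E hE => ?_⟩
  obtain ⟨N₁, h3⟩ := h2 E hE
  exact ⟨N₀ + N₁ + N₃, fun N hN x hx1 hx2 β hβ => h3 N (by omega) x _
    ((h1 N (by omega) x hx1 hx2 β hβ).mono le_rfl (by omega) le_rfl (by exact_mod_cast h4 N (by omega)))⟩

/-- Let `A`, `B`, `C`, `D`, `K`, `T`, `U` and `ε > 0` be fixed.

* For every `p` the following holds if `E` is large and `N` is large in terms of `E`; put `z = ⌊log ^ E N⌋`. Let
  `r 1, ..., r x` be an arbitrary family of real numbers in `[-B N, B N]` with an energy of order `p` of at most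
  `log ^ C N` times `x ^ (2 p) / N` (the minimal possible order of magnitude). Let `𝒩 j`, `j ≤ l`, be arbitrary sets,
  `l ≤ log ^ T N`. For all `m ≤ x` with at most `x / log ^ U N` exceptions, ALL integers `a` with
  `|a - r m| ≤ log ^ A N` and ALL `1 ≤ d ≤ log ^ D N` satisfy, simultaneously for all the sets `𝒩 j` and all windows
  `(y₁, y₂]` with `y₂ ≤ B N`: if `R` is the number of the primes `q` of `𝒩 j` in the window for which `a + q d` has no
  prime factor `≤ z`, and `R ≥ N / log ^ K N`, then the number of the primes `q` of `𝒩 j` in the window for which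
  `|a + q d|` is prime is `(1 + O(ε)) R / (V z log N)`, where `V z = ∏_{p ≤ z} (1 - 1 / p)`.
* This holds for `r m = β + κ f m`, `m ≤ x`, where `f` is a fixed nonconstant polynomial with integer
  coefficients, of degree `d`, `κ ≠ 0` is a fixed real number, `β` is any real number with `|β| ≤ B N`, and
  `N / log ^ C N ≤ x ^ d ≤ B N`.
* This holds for `r m = β + ∑ w_y m ^ y` (a sum over a finite set `F` of real exponents `y`), if the largest
  exponent `e` is greater than `1` and not an integer, `w_e ≠ 0`, `|β| ≤ B N` and `N / log ^ C N ≤ x ^ e ≤ B N`; for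
  instance for `r m = β + m ^ e`. -/
theorem result (A B C D K T U : ℕ) (ε : ℝ) (hε : 0 < ε) :
    (∀ p : ℕ, ∃ E₀ : ℕ, ∀ E : ℕ, E₀ ≤ E → ∃ N₀ : ℕ, ∀ N : ℕ, N₀ ≤ N → ∀ (x : ℕ) (r : ℕ → ℝ),
      (∀ m ∈ Icc 1 x, |r m| ≤ B * N) → (energy p x r : ℝ) * N ≤ Real.log N ^ C * (x : ℝ) ^ (2 * p) →
      Holds ε A B D K T U N ⌊Real.log N ^ E⌋₊ x r) ∧
    (∀ f : Polynomial ℤ, 1 ≤ f.natDegree → ∀ κ : ℝ, κ ≠ 0 →
      Sequence ε A B C D K T U (fun m => κ * ((f.eval (m : ℤ) : ℤ) : ℝ)) f.natDegree) ∧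
    (∀ (F : Finset ℝ) (w : ℝ → ℝ) (e : ℝ), e ∈ F → (∀ y ∈ F, y ≤ e) → w e ≠ 0 → 1 < e → (∀ k : ℕ, e ≠ k) →
      Sequence ε A B C D K T U (fun m => ∑ y ∈ F, w y * (m : ℝ) ^ y) e) := by
  classical
  refine ⟨fun p => ?_, fun f hd κ hκ => ?_, fun F w e heF hmax hwe he hen => ?_⟩
  · obtain ⟨N₁, h1⟩ := Pool.Agent.Q56.TF.flo_of p B C
    obtain ⟨E₀, h2⟩ := holds_of p A B (B + 1) (C + 1) D T U K (by omega) ε hε
    refine ⟨E₀, fun E hE => ?_⟩
    obtain ⟨N₂, h3⟩ := h2 E hE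
    exact ⟨N₁ + N₂, fun N hN x r hr hen => h3 N (by omega) x r (h1 N (by omega) x r hr hen)⟩
  · exact sequence_of ((Pool.Agent.Q56.TF.base_poly f hd).dil hκ) (by exact_mod_cast hd) A B C D K T U ε hε
  · exact sequence_of (Pool.Agent.Q56.TF.base_gp F w e heF hmax hwe he hen) he.le A B C D K T U ε hε

end Pool.Agent.Results.MP_8bf9c2_nt.ShiftsNearRealSequences
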