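import Pool.Agent.W23.SG.All
import Pool.Agent.Q311.SP.A

/-!
# Values `a + q d` for `q` from an arbitrary, possibly sparse, set of primes

For every `ε > 0` there are `c, C, η > 0` such that for EVERY set `Q` of primes up to `X` with at least
`X ^ (1 - η)` elements all coprime pairs `(a, d)` with `|a| ≤ X ^ (4/3)` and `1 ≤ d ≤ X ^ (1/3)`, with at most
`C X / (|Q| log X)` exceptions (so with a bounded number of exceptions if `Q` has a positive relative density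
in the primes), have the property that for at least `c |Q|` of the primes `q ∈ Q` the number `|a + q d|` is, up
to a factor all of whose prime factors are smaller than `X ^ ε`, a product of at most three primes, all at least
`X ^ (1/8)`.

This first part is proved in the starting files (`Pool.Agent.W23.SG.All`), where it was not handed in.

The second part is new: let `Q` be any set of primes and `X 0, X 1, …` any scales tending to infinity at which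
`Q` has relative density at least `δ`. Then for every `θ > 0` all coprime pairs `(a, d)` with `d ≥ 1` (without
any bound on their sizes), with at most `C / (δ θ)` exceptions, have the same property at a proportion larger
than `1 - θ` of the first `K` scales, for arbitrarily large `K`.
-/

set_option autoImplicit false

namespace Pool.Agent.Results.MP_8bf9c2_nt.SparseSetsOfPrimes

open Finset Filter

/-- up to a factor `m` all of whose prime factors are smaller than `X ^ ε`, the number `n ≥ 1` is a product `s`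
of at most three primes (which may be equal), all at least `X ^ (1/8)` -/
def AlmostPrime (ε : ℝ) (X n : ℕ) : Prop :=
  n ≠ 0 ∧ ∃ m s : ℕ, n = m * s ∧ (∀ l : ℕ, l.Prime → l ∣ m → (l : ℝ) < (X : ℝ) ^ ε) ∧
    s.primeFactorsList.length ≤ 3 ∧ ∀ l ∈ s.primeFactors, (X : ℝ) ^ (1 / 8 : ℝ) ≤ l

/-- the number of `q ∈ Q` for which `|a + q d|` is almost prime -/
noncomputable def count (ε : ℝ) (X : ℕ) (Q : Finset ℕ) (a : ℤ) (d : ℕ) : ℕ :=
  {q : ℕ | q ∈ Q ∧ AlmostPrime ε X (a + q * d).natAbs}.ncard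

/-- the elements of `Q` up to `X` -/
noncomputable def upTo (Q : Set ℕ) (X : ℕ) : Finset ℕ := by
  classical exact (Finset.range (X + 1)).filter (fun q => q ∈ Q)

theorem part1 (ε : ℝ) (hε : 0 < ε) :
    ∃ c C η : ℝ, 0 < c ∧ 0 < η ∧ ∀ X : ℕ, 2 ≤ X → ∀ Q : Finset ℕ,
      (∀ q ∈ Q, q.Prime ∧ q ≤ X) → (X : ℝ) ^ (1 - η) ≤ Q.card →
      ({L : ℤ × ℕ | Int.gcd L.1 L.2 = 1 ∧ |(L.1 : ℝ)| ≤ (X : ℝ) ^ (4 / 3 : ℝ) ∧ 1 ≤ L.2 ∧
        (L.2 : ℝ) ≤ (X : ℝ) ^ (1 / 3 : ℝ) ∧ (count ε X Q L.1 L.2 : ℝ) < c * Q.card}.ncard : ℝ) ≤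
        C * (X / (Q.card * Real.log X)) := by
  classical
  obtain ⟨c, C, η, hc, hη, h⟩ := Pool.Agent.W23.SG.linear_forms ε hε
  refine ⟨c, C, η, hc, hη, fun X hX Q hQ hcard => ?_⟩
  set S : Set (ℤ × ℕ) := {L : ℤ × ℕ | Int.gcd L.1 L.2 = 1 ∧ |(L.1 : ℝ)| ≤ (X : ℝ) ^ (4 / 3 : ℝ) ∧
    1 ≤ L.2 ∧ (L.2 : ℝ) ≤ (X : ℝ) ^ (1 / 3 : ℝ) ∧ (count ε X Q L.1 L.2 : ℝ) < c * Q.card} with hS
  have hfin : S.Finite := by
    refine ((Set.finite_Icc (-⌈(X : ℝ) ^ (4 / 3 : ℝ)⌉ : ℤ) ⌈(X : ℝ) ^ (4 / 3 : ℝ)⌉).prod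
      (Set.finite_Icc 0 ⌈(X : ℝ) ^ (1 / 3 : ℝ)⌉₊)).subset ?_
    rintro ⟨a, d⟩ ⟨-, h2, -, h4, -⟩
    simp only at h2 h4
    have h5 := abs_le.1 h2
    have h6 := Int.le_ceil ((X : ℝ) ^ (4 / 3 : ℝ))
    have h7 := Nat.le_ceil ((X : ℝ) ^ (1 / 3 : ℝ))
    refine ⟨⟨?_, ?_⟩, ⟨Nat.zero_le _, ?_⟩⟩
    · have : ((-⌈(X : ℝ) ^ (4 / 3 : ℝ)⌉ : ℤ) : ℝ) ≤ (a : ℝ) := by push_cast; linarith
      exact_mod_cast this
    · have : (a : ℝ) ≤ ((⌈(X : ℝ) ^ (4 / 3 : ℝ)⌉ : ℤ) : ℝ) := by linarith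
      exact_mod_cast this
    · have : (d : ℝ) ≤ ((⌈(X : ℝ) ^ (1 / 3 : ℝ)⌉₊ : ℕ) : ℝ) := by linarith
      exact_mod_cast this
  have h1 := h X hX Q hQ hcard hfin.toFinset (by
    intro L hL
    rw [Set.Finite.mem_toFinset, hS] at hL
    obtain ⟨h1, h2, h3, h4, h5⟩ := hL
    refine ⟨h1, h2, h3, h4, lt_of_le_of_lt ?_ h5⟩
    rw [Nat.cast_le, count, ← Set.ncard_coe_finset]
    refine Set.ncard_le_ncard ?_ ((Finset.finite_toSet Q).subset fun p hp => hp.1)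
    intro q hq
    rw [Finset.mem_coe, Finset.mem_filter] at hq
    obtain ⟨hqQ, hne, m, s, h6, h7, h8, h9⟩ := hq
    refine ⟨hqQ, ?_, m, s, ?_, h7, h8, h9⟩
    · rw [Ne, Int.natAbs_eq_zero, mul_comm]
      exact hne
    · rw [← h6, mul_comm])
  rw [← Set.ncard_eq_toFinset_card S hfin] at h1
  exact h1

theorem result (ε : ℝ) (hε : 0 < ε) :
    ∃ c C η : ℝ, 0 < c ∧ 0 ≤ C ∧ 0 < η ∧
      (∀ X : ℕ, 2 ≤ X → ∀ Q : Finset ℕ,
        (∀ q ∈ Q, q.Prime ∧ q ≤ X) → (X : ℝ) ^ (1 - η) ≤ Q.card →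
        ({L : ℤ × ℕ | Int.gcd L.1 L.2 = 1 ∧ |(L.1 : ℝ)| ≤ (X : ℝ) ^ (4 / 3 : ℝ) ∧ 1 ≤ L.2 ∧
          (L.2 : ℝ) ≤ (X : ℝ) ^ (1 / 3 : ℝ) ∧ (count ε X Q L.1 L.2 : ℝ) < c * Q.card}.ncard : ℝ) ≤
          C * (X / (Q.card * Real.log X))) ∧
      (∀ (Q : Set ℕ) (X : ℕ → ℕ) (δ θ : ℝ), (∀ q ∈ Q, q.Prime) → Tendsto X atTop atTop →
        0 < δ → 0 < θ →
        (∀ᶠ k in atTop, δ * (X k / Real.log (X k)) ≤ ((upTo Q (X k)).card : ℝ)) →
        {L : ℤ × ℕ | Int.gcd L.1 L.2 = 1 ∧ 1 ≤ L.2 ∧ ∀ᶠ K : ℕ in atTop,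
          θ * K ≤ ({k : ℕ | k < K ∧ (count ε (X k) (upTo Q (X k)) L.1 L.2 : ℝ) <
            c * (upTo Q (X k)).card}.ncard : ℝ)}.Finite ∧
        ({L : ℤ × ℕ | Int.gcd L.1 L.2 = 1 ∧ 1 ≤ L.2 ∧ ∀ᶠ K : ℕ in atTop,
          θ * K ≤ ({k : ℕ | k < K ∧ (count ε (X k) (upTo Q (X k)) L.1 L.2 : ℝ) <
            c * (upTo Q (X k)).card}.ncard : ℝ)}.ncard : ℝ) ≤ C / (δ * θ)) := by
  classical
  obtain ⟨c, C₀, η, hc, hη, h0⟩ := part1 ε hε
  have h : ∀ X : ℕ, 2 ≤ X → ∀ Q : Finset ℕ,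
        (∀ q ∈ Q, q.Prime ∧ q ≤ X) → (X : ℝ) ^ (1 - η) ≤ Q.card →
        ({L : ℤ × ℕ | Int.gcd L.1 L.2 = 1 ∧ |(L.1 : ℝ)| ≤ (X : ℝ) ^ (4 / 3 : ℝ) ∧ 1 ≤ L.2 ∧
          (L.2 : ℝ) ≤ (X : ℝ) ^ (1 / 3 : ℝ) ∧ (count ε X Q L.1 L.2 : ℝ) < c * Q.card}.ncard : ℝ) ≤
          (max C₀ 0) * (X / (Q.card * Real.log X)) := by
    intro X hX Q hQ hcard
    refine (h0 X hX Q hQ hcard).trans ?_
    have : (1 : ℝ) < X := by exact_mod_cast hX
    have h1 : 0 ≤ Real.log X := (Real.log_pos this).le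
    gcongr
    exact le_max_left _ _
  refine ⟨c, max C₀ 0, η, hc, le_max_right _ _, hη, h, ?_⟩
  set C := max C₀ 0 with hC
  have hC0 : 0 ≤ C := le_max_right _ _
  intro Q X δ θ hQ hX hδ hθ hdens
  refine Q311.SP.ncard_of_finset _ _ fun E hE => ?_
  have e : C / (δ * θ) = C / δ / θ := by rw [div_div]
  rw [e]
  refine Q311.SP.count_scales
    (fun (k : ℕ) (L : ℤ × ℕ) => (count ε (X k) (upTo Q (X k)) L.1 L.2 : ℝ) <
      c * (upTo Q (X k)).card) (C / δ) θ hθ E ?_ ?_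
  · -- at all large scales
    have hr : ∀ᶠ k in atTop, ∀ L ∈ E, |(L.1 : ℝ)| ≤ (X k : ℝ) ^ (4 / 3 : ℝ) ∧
        (L.2 : ℝ) ≤ (X k : ℝ) ^ (1 / 3 : ℝ) := by
      rw [Filter.eventually_all_finset]
      intro L _
      have hX' : Tendsto (fun k => (X k : ℝ)) atTop atTop := tendsto_natCast_atTop_atTop.comp hX
      have t1 := (tendsto_rpow_atTop (show (0 : ℝ) < 4 / 3 by norm_num)).comp hX'
      have t2 := (tendsto_rpow_atTop (show (0 : ℝ) < 1 / 3 by norm_num)).comp hX'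
      filter_upwards [t1.eventually_ge_atTop |(L.1 : ℝ)|, t2.eventually_ge_atTop (L.2 : ℝ)] with k h1 h2
      exact ⟨h1, h2⟩
    have hall : ∀ᶠ k in atTop, ((E.filter (fun L => (count ε (X k) (upTo Q (X k)) L.1 L.2 : ℝ) <
      c * (upTo Q (X k)).card)).card : ℝ) ≤ C / δ := by
      filter_upwards [hdens, hr, hX.eventually_ge_atTop 2,
        hX.eventually (Q311.SP.rpow_le_of_dens δ η hδ hη)] with k h1 h2 h3 h4
      have hX2 : (2 : ℝ) ≤ X k := by exact_mod_cast h3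
      have hX0 : (0 : ℝ) < X k := by linarith
      have hl : 0 < Real.log (X k) := Real.log_pos (by linarith)
      have hq0 : 0 < δ * (X k / Real.log (X k)) := by positivity
      have hq1 : (0 : ℝ) < (upTo Q (X k)).card := lt_of_lt_of_le hq0 h1
      have h5 := h (X k) h3 (upTo Q (X k)) (by
        intro q hq
        simp only [upTo, Finset.mem_filter, Finset.mem_range] at hq
        exact ⟨hQ q hq.2, by omega⟩) (h4.trans h1)
      have h6 : C * (X k / ((upTo Q (X k)).card * Real.log (X k))) ≤ C / δ := by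
        rw [div_eq_mul_one_div C δ]
        refine mul_le_mul_of_nonneg_left ?_ hC0
        rw [div_le_div_iff₀ (by positivity) hδ, one_mul]
        have h7 : δ * X k ≤ (upTo Q (X k)).card * Real.log (X k) := by
          have := mul_le_mul_of_nonneg_right h1 hl.le
          have e1 : δ * (X k / Real.log (X k)) * Real.log (X k) = δ * X k := by field_simp
          rwa [e1] at this
        linarith
      refine le_trans ?_ (h5.trans h6)
      rw [← Set.ncard_coe_finset]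
      rw [Nat.cast_le]
      refine Set.ncard_le_ncard ?_ ?_
      · intro L hL
        rw [Finset.mem_coe, Finset.mem_filter] at hL
        obtain ⟨h8, h9⟩ := hL
        obtain ⟨g1, g2, g3⟩ := hE L h8
        exact ⟨g1, (h2 L h8).1, g2, (h2 L h8).2, h9⟩
      · refine ((Set.finite_Icc (-⌈(X k : ℝ) ^ (4 / 3 : ℝ)⌉ : ℤ)
          ⌈(X k : ℝ) ^ (4 / 3 : ℝ)⌉).prod
          (Set.finite_Icc 0 ⌈(X k : ℝ) ^ (1 / 3 : ℝ)⌉₊)).subset ?_
        rintro ⟨a, d⟩ ⟨-, h2, -, h4, -⟩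
        simp only at h2 h4
        have h5 := abs_le.1 h2
        have h6 := Int.le_ceil ((X k : ℝ) ^ (4 / 3 : ℝ))
        have h7 := Nat.le_ceil ((X k : ℝ) ^ (1 / 3 : ℝ))
        refine ⟨⟨?_, ?_⟩, ⟨Nat.zero_le _, ?_⟩⟩
        · have : ((-⌈(X k : ℝ) ^ (4 / 3 : ℝ)⌉ : ℤ) : ℝ) ≤ (a : ℝ) := by push_cast; linarith
          exact_mod_cast this
        · have : (a : ℝ) ≤ ((⌈(X k : ℝ) ^ (4 / 3 : ℝ)⌉ : ℤ) : ℝ) := by linarith
          exact_mod_cast this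
        · have : (d : ℝ) ≤ ((⌈(X k : ℝ) ^ (1 / 3 : ℝ)⌉₊ : ℕ) : ℝ) := by linarith
          exact_mod_cast this
    exact Filter.eventually_atTop.1 hall
  · intro L hL
    exact Filter.eventually_atTop.1 (hE L hL).2.2

end Pool.Agent.Results.MP_8bf9c2_nt.SparseSetsOfPrimes
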